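import Mathlib

/-!
# Toric Fano varieties: the polytope, the alpha invariant and the beta invariants

A lattice is identified with `ℤ^n`; `V` is the set of the primitive generators of the rays of the
fan, `poly V` the polytope of the anticanonical divisor.
-/

set_option autoImplicit false

namespace Pool.Agent.Lib.MP_685c9e_ag

open MeasureTheory

/-- The pairing `⟨u, v⟩` of a real vector and an integral vector. -/
def pair {n : ℕ} (u : Fin n → ℝ) (v : Fin n → ℤ) : ℝ := ∑ i, u i * (v i : ℝ)

/-- The anticanonical polytope `{u : ⟨u, v⟩ ≥ -1 for all v in V}`. -/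
def poly {n : ℕ} (V : Finset (Fin n → ℤ)) : Set (Fin n → ℝ) := {u | ∀ v ∈ V, -1 ≤ pair u v}

/-- A reflexive polytope: bounded, all vertices are integral. -/
structure Reflexive {n : ℕ} (V : Finset (Fin n → ℤ)) : Prop where
  bdd : Bornology.IsBounded (poly V)
  int : ∀ u ∈ (poly V).extremePoints ℝ, ∀ i, ∃ z : ℤ, u i = z

/-- A smooth Fano polytope: `poly V` is bounded, each `v ∈ V` takes the value `-1` on it, and for
each vertex `u` the `v ∈ V` with `⟨u, v⟩ = -1` form a basis of the lattice `ℤ^n`. -/
structure SmoothFano {n : ℕ} (V : Finset (Fin n → ℤ)) : Prop where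
  bdd : Bornology.IsBounded (poly V)
  tight : ∀ v ∈ V, ∃ u ∈ poly V, pair u v = -1
  smooth : ∀ u ∈ (poly V).extremePoints ℝ, ∃ b : Fin n → Fin n → ℤ,
    Set.range b = {v | v ∈ V ∧ pair u v = -1} ∧ IsUnit (Matrix.of b).det

/-- The alpha invariant: the supremum of the `t ≥ 0` such that for all `u` in the polytope the
coefficients of `t D`, `D = ∑ (1 + ⟨u, v⟩) D_v`, are at most one. -/
noncomputable def alphaT {n : ℕ} (V : Finset (Fin n → ℤ)) : ℝ :=
  sSup {t : ℝ | 0 ≤ t ∧ ∀ u ∈ poly V, ∀ v ∈ V, t * (1 + pair u v) ≤ 1}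

/-- The log discrepancy of the toric divisor `E_w`: `A(w) = - min ⟨u, w⟩`. -/
noncomputable def logDisc {n : ℕ} (V : Finset (Fin n → ℤ)) (w : Fin n → ℤ) : ℝ :=
  sSup {s | ∃ u ∈ poly V, s = - pair u w}

/-- The invariant `β(E_w) = A(w) - (1 / vol) ∫_0^∞ vol(-K - t E_w) dt`; the volume of
`-K - t E_w` is (up to the factor `n!`) that of the part of the polytope where
`⟨u, w⟩ + A(w) ≥ t`. -/
noncomputable def betaT {n : ℕ} (V : Finset (Fin n → ℤ)) (w : Fin n → ℤ) : ℝ :=
  logDisc V w - (∫ t in Set.Ioi (0 : ℝ),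
    (volume {u | u ∈ poly V ∧ t ≤ pair u w + logDisc V w}).toReal) / (volume (poly V)).toReal

/-- A primitive vector. -/
def Primitive {n : ℕ} (w : Fin n → ℤ) : Prop := ∀ d : ℤ, (∀ i, d ∣ w i) → IsUnit d

/-- Unstable: `β(E_w) < 0` for a toric divisor over `X`. -/
def Unstable {n : ℕ} (V : Finset (Fin n → ℤ)) : Prop := ∃ w : Fin n → ℤ, Primitive w ∧ betaT V w < 0

section basic

variable {n : ℕ}

theorem pair_add (u u' : Fin n → ℝ) (v : Fin n → ℤ) : pair (u + u') v = pair u v + pair u' v := by
  simp [pair, add_mul, Finset.sum_add_distrib]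

theorem pair_smul (c : ℝ) (u : Fin n → ℝ) (v : Fin n → ℤ) : pair (c • u) v = c * pair u v := by
  simp [pair, Finset.mul_sum, mul_assoc]

theorem pair_neg (u : Fin n → ℝ) (v : Fin n → ℤ) : pair (-u) v = - pair u v := by
  simp [pair]

theorem pair_zero (v : Fin n → ℤ) : pair (0 : Fin n → ℝ) v = 0 := by simp [pair]

theorem continuous_pair (v : Fin n → ℤ) : Continuous fun u : Fin n → ℝ => pair u v := by
  unfold pair
  exact continuous_finsetSum _ fun i _ => (continuous_apply i).mul continuous_const

theorem zero_mem_poly (V : Finset (Fin n → ℤ)) : (0 : Fin n → ℝ) ∈ poly V := by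
  intro v _
  rw [pair_zero]; norm_num

theorem isClosed_poly (V : Finset (Fin n → ℤ)) : IsClosed (poly V) := by
  have : poly V = ⋂ v ∈ V, {u | -1 ≤ pair u v} := by
    ext u; simp [poly]
  rw [this]
  exact isClosed_biInter fun v _ => isClosed_le continuous_const (continuous_pair v)

theorem convex_poly (V : Finset (Fin n → ℤ)) : Convex ℝ (poly V) := by
  intro x hx y hy a b ha hb hab v hv
  rw [pair_add, pair_smul, pair_smul]
  have h1 := mul_le_mul_of_nonneg_left (hx v hv) ha
  have h2 := mul_le_mul_of_nonneg_left (hy v hv) hb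
  linarith

theorem isCompact_poly {V : Finset (Fin n → ℤ)} (h : Bornology.IsBounded (poly V)) :
    IsCompact (poly V) := Metric.isCompact_of_isClosed_isBounded (isClosed_poly V) h

/-- Krein–Milman: an inequality that holds at the vertices holds on the polytope. -/
theorem le_of_extreme {V : Finset (Fin n → ℤ)} (h : Bornology.IsBounded (poly V))
    {w : Fin n → ℤ} {c : ℝ} (hc : ∀ u ∈ (poly V).extremePoints ℝ, pair u w ≤ c) :
    ∀ u ∈ poly V, pair u w ≤ c := by
  intro u hu
  rw [← closure_convexHull_extremePoints (isCompact_poly h) (convex_poly V)] at hu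
  have hcl : IsClosed {u : Fin n → ℝ | pair u w ≤ c} :=
    isClosed_le (continuous_pair w) continuous_const
  have hcv : Convex ℝ {u : Fin n → ℝ | pair u w ≤ c} := by
    intro x hx y hy a b ha hb hab
    have hx' : pair x w ≤ c := hx
    have hy' : pair y w ≤ c := hy
    change pair (a • x + b • y) w ≤ c
    rw [pair_add, pair_smul, pair_smul]
    have h1 := mul_le_mul_of_nonneg_left hx' ha
    have h2 := mul_le_mul_of_nonneg_left hy' hb
    have h3 : a * c + b * c = c := by rw [← add_mul, hab, one_mul]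
    linarith
  exact closure_minimal (convexHull_min hc hcv) hcl hu

/-- At a vertex every direction meets a tight facet. -/
theorem extreme_tight {V : Finset (Fin n → ℤ)} {u : Fin n → ℝ}
    (hu : u ∈ (poly V).extremePoints ℝ) {d : Fin n → ℝ} (hd : d ≠ 0) :
    ∃ v ∈ V, pair u v = -1 ∧ pair d v ≠ 0 := by
  by_contra hcon
  push Not at hcon
  have hev : ∀ᶠ s : ℝ in nhds 0, ∀ v ∈ V, -1 ≤ pair (u + s • d) v := by
    rw [Filter.eventually_all_finset]
    intro v hv
    by_cases ht : pair u v = -1
    · filter_upwards with s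
      rw [pair_add, pair_smul, hcon v hv ht, ht]; simp
    · have h1 : -1 < pair u v := lt_of_le_of_ne (hu.1 v hv) (Ne.symm ht)
      have hcont : Continuous fun s : ℝ => pair (u + s • d) v :=
        (continuous_pair v).comp (by fun_prop)
      have h2 : -1 < pair (u + (0 : ℝ) • d) v := by simpa using h1
      filter_upwards [hcont.continuousAt.eventually_mem (isOpen_Ioi.mem_nhds h2)] with s hs
      exact le_of_lt hs
  obtain ⟨ε, hε, hs⟩ := Metric.eventually_nhds_iff.1 hev
  have hp : u + (ε / 2) • d ∈ poly V := hs (by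
    simp only [dist_zero_right, Real.norm_eq_abs]; rw [abs_of_pos (by linarith)]; linarith)
  have hm : u + (-(ε / 2)) • d ∈ poly V := hs (by
    simp only [dist_zero_right, Real.norm_eq_abs, abs_neg]; rw [abs_of_pos (by linarith)]; linarith)
  have hseg : u ∈ openSegment ℝ (u + (ε / 2) • d) (u + (-(ε / 2)) • d) := by
    refine ⟨1 / 2, 1 / 2, by norm_num, by norm_num, by norm_num, ?_⟩
    ext i
    simp only [Pi.add_apply, Pi.smul_apply, smul_eq_mul]
    ring
  have h3 := ((mem_extremePoints.1 hu).2 _ hp _ hm hseg).1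
  apply hd
  have h4 : (ε / 2) • d = 0 := by
    have := congrArg (fun z => z - u) h3
    simpa using this
  rcases smul_eq_zero.1 h4 with h5 | h5
  · linarith
  · exact h5

end basic

end Pool.Agent.Lib.MP_685c9e_ag
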