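import Pool.Agent.Lib.MP_685c9e_ag.Upper73

/-!
# The example: `F_1 × (P^1)^(n-2)`
-/

set_option autoImplicit false

namespace Pool.Agent.Lib.MP_685c9e_ag

open MeasureTheory

variable {m : ℕ}

/-- the other coordinates. -/
abbrev IsO (i : Fin (m + 2)) : Prop := i ≠ 0 ∧ i ≠ 1

/-- the unit vectors -/
abbrev ee (i : Fin (m + 2)) : Fin (m + 2) → ℤ := Pi.single i 1

/-- The generators of the rays of the fan of `F_1 × (P^1)^m`. -/
def VV (m : ℕ) : Finset (Fin (m + 2) → ℤ) :=
  ({ee 0, ee 1, ee 1 - ee 0, -ee 1} : Finset (Fin (m + 2) → ℤ)) ∪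
    ((Finset.univ.filter IsO).image fun i => ee i) ∪
    ((Finset.univ.filter IsO).image fun i => -ee i)

theorem mem_VV {v : Fin (m + 2) → ℤ} : v ∈ VV m ↔ v = ee 0 ∨ v = ee 1 ∨ v = ee 1 - ee 0 ∨
    v = -ee 1 ∨ ∃ i, IsO i ∧ (v = ee i ∨ v = -ee i) := by
  simp only [VV, Finset.mem_union, Finset.mem_insert, Finset.mem_singleton, Finset.mem_image,
    Finset.mem_filter, Finset.mem_univ, true_and]
  constructor
  · rintro ((h | h) | h)
    · tauto
    · obtain ⟨i, hi, rfl⟩ := h
      exact Or.inr (Or.inr (Or.inr (Or.inr ⟨i, hi, Or.inl rfl⟩)))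
    · obtain ⟨i, hi, rfl⟩ := h
      exact Or.inr (Or.inr (Or.inr (Or.inr ⟨i, hi, Or.inr rfl⟩)))
  · rintro (h | h | h | h | ⟨i, hi, h | h⟩)
    · tauto
    · tauto
    · tauto
    · tauto
    · exact Or.inl (Or.inr ⟨i, hi, h.symm⟩)
    · exact Or.inr ⟨i, hi, h.symm⟩

theorem pair_ee (u : Fin (m + 2) → ℝ) (i : Fin (m + 2)) : pair u (ee i) = u i := by
  simp [pair, ee, Pi.single_apply]

theorem pair_neg_right {n : ℕ} (u : Fin n → ℝ) (v : Fin n → ℤ) : pair u (-v) = - pair u v := by
  simp [pair]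

theorem pair_sub_right {n : ℕ} (u : Fin n → ℝ) (v w : Fin n → ℤ) :
    pair u (v - w) = pair u v - pair u w := by
  simp [pair, mul_sub, Finset.sum_sub_distrib]

theorem mem_polyVV {u : Fin (m + 2) → ℝ} : u ∈ poly (VV m) ↔
    -1 ≤ u 0 ∧ -1 ≤ u 1 ∧ u 0 ≤ 1 + u 1 ∧ u 1 ≤ 1 ∧ ∀ i, IsO i → -1 ≤ u i ∧ u i ≤ 1 := by
  constructor
  · intro h
    have h0 := h (ee 0) (mem_VV.2 (by tauto))
    have h1 := h (ee 1) (mem_VV.2 (by tauto))
    have h2 := h (ee 1 - ee 0) (mem_VV.2 (by tauto))
    have h3 := h (-ee 1) (mem_VV.2 (by tauto))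
    rw [pair_ee] at h0 h1
    rw [pair_sub_right, pair_ee, pair_ee] at h2
    rw [pair_neg_right, pair_ee] at h3
    refine ⟨h0, h1, by linarith, by linarith, fun i hi => ?_⟩
    have h4 := h (ee i) (mem_VV.2 (Or.inr (Or.inr (Or.inr (Or.inr ⟨i, hi, Or.inl rfl⟩)))))
    have h5 := h (-ee i) (mem_VV.2 (Or.inr (Or.inr (Or.inr (Or.inr ⟨i, hi, Or.inr rfl⟩)))))
    rw [pair_ee] at h4
    rw [pair_neg_right, pair_ee] at h5
    exact ⟨h4, by linarith⟩
  · rintro ⟨h0, h1, h2, h3, h4⟩ v hv
    rcases mem_VV.1 hv with rfl | rfl | rfl | rfl | ⟨i, hi, rfl | rfl⟩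
    · rwa [pair_ee]
    · rwa [pair_ee]
    · rw [pair_sub_right, pair_ee, pair_ee]; linarith
    · rw [pair_neg_right, pair_ee]; linarith
    · rw [pair_ee]; exact (h4 i hi).1
    · rw [pair_neg_right, pair_ee]; linarith [(h4 i hi).2]

theorem bddVV : Bornology.IsBounded (poly (VV m)) := by
  refine (Metric.isBounded_Icc (fun _ => (-2 : ℝ)) (fun _ => (2 : ℝ))).subset ?_
  intro u hu
  obtain ⟨h0, h1, h2, h3, h4⟩ := mem_polyVV.1 hu
  rw [Set.mem_Icc]
  constructor
  · intro i
    change (-2 : ℝ) ≤ u i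
    by_cases i0 : i = 0
    · subst i0; linarith
    · by_cases i1 : i = 1
      · subst i1; linarith
      · linarith [(h4 i ⟨i0, i1⟩).1]
  · intro i
    change u i ≤ (2 : ℝ)
    by_cases i0 : i = 0
    · subst i0; linarith
    · by_cases i1 : i = 1
      · subst i1; linarith
      · linarith [(h4 i ⟨i0, i1⟩).2]

/-- a point of the polytope with given first coordinates and other coordinates `c`. -/
def pt (m : ℕ) (x y c : ℝ) : Fin (m + 2) → ℝ := fun i => if i = 0 then x else if i = 1 then y else c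

theorem pt0 (x y c : ℝ) : pt m x y c 0 = x := by simp [pt]

theorem pt1 (x y c : ℝ) : pt m x y c 1 = y := by
  have : (1 : Fin (m + 2)) ≠ 0 := by simp
  simp [pt, this]

theorem ptO (x y c : ℝ) {i : Fin (m + 2)} (hi : IsO i) : pt m x y c i = c := by
  simp [pt, hi.1, hi.2]

theorem pt_mem {x y c : ℝ} (h0 : -1 ≤ x) (h1 : -1 ≤ y) (h2 : x ≤ 1 + y) (h3 : y ≤ 1)
    (h4 : -1 ≤ c) (h5 : c ≤ 1) : pt m x y c ∈ poly (VV m) := by
  rw [mem_polyVV, pt0, pt1]
  exact ⟨h0, h1, h2, h3, fun i hi => by rw [ptO _ _ _ hi]; exact ⟨h4, h5⟩⟩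

/-- classification of the vertices. -/
theorem extremeVV {u : Fin (m + 2) → ℝ} (hu : u ∈ (poly (VV m)).extremePoints ℝ) :
    (∀ i, IsO i → u i = -1 ∨ u i = 1) ∧
    ((u 1 = -1 ∧ (u 0 = -1 ∨ u 0 = 0)) ∨ (u 1 = 1 ∧ (u 0 = -1 ∨ u 0 = 2))) := by
  obtain ⟨h0, h1, h2, h3, h4⟩ := mem_polyVV.1 hu.1
  -- for a direction
  have key : ∀ d : Fin (m + 2) → ℝ, d ≠ 0 →
      (u 0 = -1 ∧ d 0 ≠ 0) ∨ (u 1 = -1 ∧ d 1 ≠ 0) ∨ (u 0 = 1 + u 1 ∧ d 1 ≠ d 0) ∨
      (u 1 = 1 ∧ d 1 ≠ 0) ∨ ∃ i, IsO i ∧ (u i = -1 ∨ u i = 1) ∧ d i ≠ 0 := by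
    intro d hd
    obtain ⟨v, hv, ht, hdv⟩ := extreme_tight hu hd
    rcases mem_VV.1 hv with rfl | rfl | rfl | rfl | ⟨i, hi, rfl | rfl⟩
    · rw [pair_ee] at ht hdv; exact Or.inl ⟨ht, hdv⟩
    · rw [pair_ee] at ht hdv; exact Or.inr (Or.inl ⟨ht, hdv⟩)
    · rw [pair_sub_right, pair_ee, pair_ee] at ht hdv
      exact Or.inr (Or.inr (Or.inl ⟨by linarith, fun h => hdv (by rw [h, sub_self])⟩))
    · rw [pair_neg_right, pair_ee] at ht hdv
      exact Or.inr (Or.inr (Or.inr (Or.inl ⟨by linarith, fun h => hdv (by rw [h, neg_zero])⟩)))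
    · rw [pair_ee] at ht hdv
      exact Or.inr (Or.inr (Or.inr (Or.inr ⟨i, hi, Or.inl ht, hdv⟩)))
    · rw [pair_neg_right, pair_ee] at ht hdv
      exact Or.inr (Or.inr (Or.inr (Or.inr ⟨i, hi, Or.inr (by linarith),
        fun h => hdv (by rw [h, neg_zero])⟩)))
  have n10 : (1 : Fin (m + 2)) ≠ 0 := by simp
  refine ⟨fun i hi => ?_, ?_⟩
  · have hd : (Pi.single i 1 : Fin (m + 2) → ℝ) ≠ 0 := by
      intro h; have := congrFun h i; simp at this
    rcases key _ hd with h | h | h | h | ⟨j, hj, hj', hj''⟩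
    · exact absurd (by simp [Pi.single_apply, Ne.symm hi.1]) h.2
    · exact absurd (by simp [Pi.single_apply, Ne.symm hi.2]) h.2
    · exact absurd (by simp [Pi.single_apply, Ne.symm hi.1, Ne.symm hi.2]) h.2
    · exact absurd (by simp [Pi.single_apply, Ne.symm hi.2]) h.2
    · by_cases hij : j = i
      · subst hij; exact hj'
      · exact absurd (by simp [Pi.single_apply, hij]) hj''
  · -- the directions `e_0`, `e_1`, `e_0 + e_1`
    have hx : u 0 = -1 ∨ u 0 = 1 + u 1 := by
      have hd : pt m 1 0 0 ≠ 0 := by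
        intro h; have := congrFun h 0; rw [pt0] at this; simp at this
      rcases key _ hd with h | h | h | h | ⟨j, hj, hj', hj''⟩
      · exact Or.inl h.1
      · exact absurd (pt1 _ _ _) h.2
      · exact Or.inr h.1
      · exact absurd (pt1 _ _ _) h.2
      · exact absurd (ptO _ _ _ hj) hj''
    have hy : u 1 = -1 ∨ u 1 = 1 := by
      have hd : pt m 1 1 0 ≠ 0 := by
        intro h; have := congrFun h 0; rw [pt0] at this; simp at this
      have hd' : pt m 0 1 0 ≠ 0 := by
        intro h; have := congrFun h 1; rw [pt1] at this; simp at this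
      rcases key _ hd with h | h | h | h | ⟨j, hj, hj', hj''⟩
      · rcases key _ hd' with h' | h' | h' | h' | ⟨j, hj, hj', hj''⟩
        · exact absurd (pt0 _ _ _) h'.2
        · exact Or.inl h'.1
        · exfalso; linarith [h.1, h'.1]
        · exact Or.inr h'.1
        · exact absurd (ptO _ _ _ hj) hj''
      · exact Or.inl h.1
      · exact absurd (by rw [pt0, pt1]) h.2
      · exact Or.inr h.1
      · exact absurd (ptO _ _ _ hj) hj''
    rcases hy with hy | hy
    · exact Or.inl ⟨hy, hx.imp id fun h => by rw [h, hy]; norm_num⟩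
    · exact Or.inr ⟨hy, hx.imp id fun h => by rw [h, hy]; norm_num⟩

theorem smoothVV : SmoothFano (VV m) := by
  refine ⟨bddVV, fun v hv => ?_, fun u hu => ?_⟩
  · rcases mem_VV.1 hv with rfl | rfl | rfl | rfl | ⟨i, hi, rfl | rfl⟩
    · exact ⟨pt m (-1) 0 0, pt_mem (by norm_num) (by norm_num) (by norm_num) (by norm_num)
        (by norm_num) (by norm_num), by rw [pair_ee, pt0]⟩
    · exact ⟨pt m 0 (-1) 0, pt_mem (by norm_num) (by norm_num) (by norm_num) (by norm_num)
        (by norm_num) (by norm_num), by rw [pair_ee, pt1]⟩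
    · exact ⟨pt m 1 0 0, pt_mem (by norm_num) (by norm_num) (by norm_num) (by norm_num)
        (by norm_num) (by norm_num), by rw [pair_sub_right, pair_ee, pair_ee, pt1, pt0]; norm_num⟩
    · exact ⟨pt m 0 1 0, pt_mem (by norm_num) (by norm_num) (by norm_num) (by norm_num)
        (by norm_num) (by norm_num), by rw [pair_neg_right, pair_ee, pt1]⟩
    · exact ⟨pt m 0 0 (-1), pt_mem (by norm_num) (by norm_num) (by norm_num) (by norm_num)
        (by norm_num) (by norm_num), by rw [pair_ee, ptO _ _ _ hi]⟩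
    · exact ⟨pt m 0 0 1, pt_mem (by norm_num) (by norm_num) (by norm_num) (by norm_num)
        (by norm_num) (by norm_num), by rw [pair_neg_right, pair_ee, ptO _ _ _ hi]⟩
  · obtain ⟨hO, hxy⟩ := extremeVV hu
    obtain ⟨h0, h1, h2, h3, h4⟩ := mem_polyVV.1 hu.1
    have n10 : (1 : Fin (m + 2)) ≠ 0 := by simp
    -- the basis
    set b : Fin (m + 2) → Fin (m + 2) → ℤ := fun i =>
      if i = 0 then (if u 0 = -1 then ee 0 else ee 1 - ee 0)
      else (if u i = -1 then ee i else -ee i) with hb
    have b0 : b 0 = if u 0 = -1 then ee 0 else ee 1 - ee 0 := by simp [hb]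
    have bi : ∀ i, i ≠ 0 → b i = if u i = -1 then ee i else -ee i := by
      intro i hi; simp [hb, hi]
    have hmem : ∀ i, b i ∈ VV m ∧ pair u (b i) = -1 := by
      intro i
      by_cases i0 : i = 0
      · subst i0
        rw [b0]
        split_ifs with hc
        · exact ⟨mem_VV.2 (by tauto), by rw [pair_ee]; exact hc⟩
        · refine ⟨mem_VV.2 (by tauto), ?_⟩
          rw [pair_sub_right, pair_ee, pair_ee]
          rcases hxy with ⟨hy, hx⟩ | ⟨hy, hx⟩
          · rcases hx with hx | hx
            · exact absurd hx hc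
            · rw [hx, hy]; norm_num
          · rcases hx with hx | hx
            · exact absurd hx hc
            · rw [hx, hy]; norm_num
      · rw [bi i i0]
        by_cases i1 : i = 1
        · subst i1
          split_ifs with hc
          · exact ⟨mem_VV.2 (by tauto), by rw [pair_ee]; exact hc⟩
          · refine ⟨mem_VV.2 (by tauto), ?_⟩
            rw [pair_neg_right, pair_ee]
            rcases hxy with ⟨hy, _⟩ | ⟨hy, _⟩
            · exact absurd hy hc
            · rw [hy]
        · split_ifs with hc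
          · exact ⟨mem_VV.2 (Or.inr (Or.inr (Or.inr (Or.inr ⟨i, ⟨i0, i1⟩, Or.inl rfl⟩)))),
              by rw [pair_ee]; exact hc⟩
          · refine ⟨mem_VV.2 (Or.inr (Or.inr (Or.inr (Or.inr ⟨i, ⟨i0, i1⟩, Or.inr rfl⟩)))), ?_⟩
            rw [pair_neg_right, pair_ee]
            rcases hO i ⟨i0, i1⟩ with h | h
            · exact absurd h hc
            · rw [h]
    refine ⟨b, ?_, ?_⟩
    · ext v
      constructor
      · rintro ⟨i, rfl⟩
        exact hmem i
      · rintro ⟨hv, ht⟩
        rcases mem_VV.1 hv with rfl | rfl | rfl | rfl | ⟨i, hi, rfl | rfl⟩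
        · rw [pair_ee] at ht
          exact ⟨0, by rw [b0, if_pos ht]⟩
        · rw [pair_ee] at ht
          exact ⟨1, by rw [bi 1 n10, if_pos ht]⟩
        · rw [pair_sub_right, pair_ee, pair_ee] at ht
          refine ⟨0, ?_⟩
          rw [b0, if_neg]
          intro hc
          rw [hc] at ht
          linarith
        · rw [pair_neg_right, pair_ee] at ht
          refine ⟨1, ?_⟩
          rw [bi 1 n10, if_neg]
          intro hc
          rw [hc] at ht
          norm_num at ht
        · rw [pair_ee] at ht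
          exact ⟨i, by rw [bi i hi.1, if_pos ht]⟩
        · rw [pair_neg_right, pair_ee] at ht
          refine ⟨i, ?_⟩
          rw [bi i hi.1, if_neg]
          intro hc
          rw [hc] at ht
          norm_num at ht
    · have htri : (Matrix.of b).BlockTriangular id := by
        intro i j hij
        have hij' : j < i := hij
        have hi0 : i ≠ 0 := by
          rintro rfl; exact absurd hij' (Fin.not_lt_zero j)
        rw [Matrix.of_apply, bi i hi0]
        split_ifs <;> simp [Pi.single_apply, ne_of_lt hij']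
      rw [Matrix.det_of_isUpperTriangular htri]
      refine Finset.prod_induction _ IsUnit (fun _ _ h h' => h.mul h') isUnit_one fun i _ => ?_
      rw [Matrix.of_apply]
      by_cases i0 : i = 0
      · subst i0
        rw [b0]
        split_ifs
        · simp
        · simp [Pi.single_apply, Ne.symm n10]
      · rw [bi i i0]
        split_ifs <;> simp

theorem pair_le_two {u : Fin (m + 2) → ℝ} (hu : u ∈ poly (VV m)) {v : Fin (m + 2) → ℤ}
    (hv : v ∈ VV m) : pair u v ≤ 2 := by
  obtain ⟨h0, h1, h2, h3, h4⟩ := mem_polyVV.1 hu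
  rcases mem_VV.1 hv with rfl | rfl | rfl | rfl | ⟨i, hi, rfl | rfl⟩
  · rw [pair_ee]; linarith
  · rw [pair_ee]; linarith
  · rw [pair_sub_right, pair_ee, pair_ee]; linarith
  · rw [pair_neg_right, pair_ee]; linarith
  · rw [pair_ee]; linarith [(h4 i hi).2]
  · rw [pair_neg_right, pair_ee]; linarith [(h4 i hi).1]

theorem alphaVV : alphaT (VV m) = 1 / 3 := by
  have hg : IsGreatest {t : ℝ | 0 ≤ t ∧ ∀ u ∈ poly (VV m), ∀ v ∈ VV m, t * (1 + pair u v) ≤ 1}
      (1 / 3) := by
    constructor
    · refine ⟨by norm_num, fun u hu v hv => ?_⟩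
      have := pair_le_two hu hv
      linarith
    · rintro t ⟨_, ht⟩
      have h1 := ht (pt m 2 1 0) (pt_mem (by norm_num) (by norm_num) (by norm_num) (by norm_num)
        (by norm_num) (by norm_num)) (ee 0) (mem_VV.2 (by tauto))
      rw [pair_ee, pt0] at h1
      linarith
  exact hg.csSup_eq

theorem refl_meas : Measurable
    (fun (u : Fin (m + 2) → ℝ) (i : Fin (m + 2)) => if i = 1 then -u i else u i) := by
  refine measurable_pi_lambda _ fun i => ?_
  by_cases h : i = 1
  · simp only [h, if_true]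
    exact (measurable_pi_apply (X := fun _ : Fin (m + 2) => ℝ) (1 : Fin (m + 2))).neg
  · simp only [h, if_false]
    exact measurable_pi_apply (X := fun _ : Fin (m + 2) => ℝ) i

/-- the reflection of the second coordinate. -/
def refl1 (m : ℕ) : (Fin (m + 2) → ℝ) ≃ᵐ (Fin (m + 2) → ℝ) where
  toFun u i := if i = 1 then -u i else u i
  invFun u i := if i = 1 then -u i else u i
  left_inv u := by ext i; by_cases h : i = 1 <;> simp [h]
  right_inv u := by ext i; by_cases h : i = 1 <;> simp [h]
  measurable_toFun := refl_meas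
  measurable_invFun := refl_meas

theorem refl1_apply (u : Fin (m + 2) → ℝ) (i : Fin (m + 2)) :
    refl1 m u i = if i = 1 then -u i else u i := rfl

theorem refl1_mp : MeasurePreserving (refl1 m) volume volume := by
  have h : ∀ i : Fin (m + 2), MeasurePreserving (fun t : ℝ => if i = 1 then -t else t)
      volume volume := by
    intro i
    by_cases h : i = 1
    · simp only [h, if_true]; exact Measure.measurePreserving_neg volume
    · simp only [h, if_false]; exact MeasurePreserving.id volume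
  exact volume_preserving_pi h

theorem integral_pos : 0 < ∫ u in poly (VV m), pair u (ee 1) := by
  set P := poly (VV m) with hP
  have hmeas : MeasurableSet P := (isClosed_poly _).measurableSet
  set g : (Fin (m + 2) → ℝ) → ℝ := P.indicator (fun u => pair u (ee 1)) with hg
  have hint : Integrable g := by
    rw [hg, integrable_indicator_iff hmeas]
    exact (continuous_pair _).continuousOn.integrableOn_compact (isCompact_poly bddVV)
  have hint' : Integrable (fun u => g (refl1 m u)) :=
    (refl1_mp.integrable_comp_emb (refl1 m).measurableEmbedding).2 hint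
  have e1 : ∫ u in P, pair u (ee 1) = ∫ u, g u := (integral_indicator hmeas).symm
  have e2 : ∫ u, g (refl1 m u) = ∫ u, g u := refl1_mp.integral_comp' g
  have n10 : (1 : Fin (m + 2)) ≠ 0 := by simp
  have r1 : ∀ u : Fin (m + 2) → ℝ, refl1 m u 1 = -u 1 := fun u => by simp [refl1_apply]
  have r0 : ∀ u : Fin (m + 2) → ℝ, refl1 m u 0 = u 0 := fun u => by
    simp [refl1_apply, Ne.symm n10]
  have rO : ∀ (u : Fin (m + 2) → ℝ) (i), i ≠ 1 → refl1 m u i = u i := fun u i h => by
    simp [refl1_apply, h]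
  have hmono : ∀ u : Fin (m + 2) → ℝ, 0 ≤ u 1 → refl1 m u ∈ P → u ∈ P := by
    intro u hu h
    obtain ⟨h0, h1, h2, h3, h4⟩ := mem_polyVV.1 h
    rw [r0] at h0 h2
    rw [r1] at h1 h2 h3
    refine mem_polyVV.2 ⟨h0, by linarith, by linarith, by linarith, fun i hi => ?_⟩
    have := h4 i hi
    rwa [rO u i hi.2] at this
  have hrr : ∀ u : Fin (m + 2) → ℝ, refl1 m (refl1 m u) = u := (refl1 m).left_inv
  have hnn : ∀ u : Fin (m + 2) → ℝ, 0 ≤ g u + g (refl1 m u) := by
    intro u
    simp only [hg]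
    rcases le_total 0 (u 1) with h | h
    · by_cases hu : u ∈ P
      · rw [Set.indicator_of_mem hu, pair_ee]
        by_cases hu' : refl1 m u ∈ P
        · rw [Set.indicator_of_mem hu', pair_ee, r1]; linarith
        · rw [Set.indicator_of_notMem hu']; linarith
      · have hu' : refl1 m u ∉ P := fun hh => hu (hmono u h hh)
        rw [Set.indicator_of_notMem hu, Set.indicator_of_notMem hu', add_zero]
    · by_cases hu' : refl1 m u ∈ P
      · rw [Set.indicator_of_mem hu', pair_ee, r1]
        by_cases hu : u ∈ P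
        · rw [Set.indicator_of_mem hu, pair_ee]; linarith
        · rw [Set.indicator_of_notMem hu]; linarith
      · have hu : u ∉ P := fun hh => hu' (hmono (refl1 m u) (by rw [r1]; linarith)
          (by rwa [hrr]))
        rw [Set.indicator_of_notMem hu, Set.indicator_of_notMem hu', add_zero]
  have e3 : ∫ u, (g u + g (refl1 m u)) = 2 * ∫ u, g u := by
    rw [integral_add hint hint', e2]; ring
  have hpos : 0 < ∫ u, (g u + g (refl1 m u)) := by
    rw [integral_pos_iff_support_of_nonneg hnn (hint.add hint')]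
    set U : Set (Fin (m + 2) → ℝ) := Set.pi Set.univ fun i =>
      if i = 0 then Set.Ioo 1 (3 / 2) else if i = 1 then Set.Ioo (1 / 2) 1 else Set.Ioo (-1) 1
      with hU
    have hopen : IsOpen U := by
      refine isOpen_set_pi Set.finite_univ fun i _ => ?_
      split_ifs <;> exact isOpen_Ioo
    have hne : U.Nonempty := by
      refine ⟨pt m (5 / 4) (3 / 4) 0, fun i _ => ?_⟩
      by_cases i0 : i = 0
      · subst i0; rw [pt0]; norm_num
      · by_cases i1 : i = 1
        · subst i1; rw [pt1]; simp only [n10, if_false, if_true]; norm_num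
        · rw [ptO _ _ _ ⟨i0, i1⟩]; simp only [i0, i1, if_false]; norm_num
    have hsub : U ⊆ Function.support fun u => g u + g (refl1 m u) := by
      intro u hu
      have hu0 := hu 0 trivial
      have hu1 := hu 1 trivial
      simp only [if_true] at hu0
      simp only [n10, if_false, if_true] at hu1
      have hmem : u ∈ P := by
        refine mem_polyVV.2 ⟨by linarith [hu0.1], by linarith [hu1.1], by linarith [hu0.2, hu1.1],
          by linarith [hu1.2], fun i hi => ?_⟩
        have := hu i trivial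
        simp only [hi.1, hi.2, if_false] at this
        exact ⟨by linarith [this.1], by linarith [this.2]⟩
      have hnot : refl1 m u ∉ P := by
        intro h
        obtain ⟨_, _, h2, _, _⟩ := mem_polyVV.1 h
        rw [r0, r1] at h2
        linarith [hu0.1, hu1.1]
      rw [Function.mem_support]
      simp only [hg]
      rw [Set.indicator_of_mem hmem, Set.indicator_of_notMem hnot, pair_ee, add_zero]
      exact ne_of_gt (by linarith [hu1.1])
    exact lt_of_lt_of_le (hopen.measure_pos volume hne) (measure_mono hsub)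
  rw [e1]
  linarith

theorem unstableVV : Unstable (VV m) := by
  refine ⟨ee 1, fun d hd => ?_, ?_⟩
  · have := hd 1
    simp at this
    exact isUnit_of_dvd_one this
  · have hvol : 0 < (volume (poly (VV m))).toReal := by
      have hlt : volume (poly (VV m)) < ⊤ := (isCompact_poly bddVV).measure_lt_top
      refine ENNReal.toReal_pos (fun h0 => ?_) hlt.ne
      have := integral_pos (m := m)
      rw [Measure.restrict_eq_zero.2 h0, integral_zero_measure] at this
      exact lt_irrefl _ this
    rw [beta_eq bddVV _ hvol.ne']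
    exact div_neg_of_neg_of_pos (neg_neg_of_pos integral_pos) hvol

/-- the main theorem. -/
theorem main :
    (∀ (n : ℕ) (V : Finset (Fin n → ℤ)), Reflexive V → Unstable V → alphaT V ≤ 1 / 3) ∧
    (∀ n : ℕ, 2 ≤ n → IsGreatest {a : ℝ | ∃ V : Finset (Fin n → ℤ),
      SmoothFano V ∧ Unstable V ∧ a = alphaT V} (1 / 3)) := by
  refine ⟨fun n V h hu => ?_, fun n hn => ?_⟩
  · obtain ⟨w, _, hw⟩ := hu
    exact upper h ⟨w, hw⟩
  · obtain ⟨m, rfl⟩ := Nat.exists_eq_add_of_le' hn
    refine ⟨⟨VV m, smoothVV, unstableVV, alphaVV.symm⟩, ?_⟩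
    rintro a ⟨V, hV, ⟨w, _, hw⟩, rfl⟩
    exact upper hV.reflexive ⟨w, hw⟩

end Pool.Agent.Lib.MP_685c9e_ag
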