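import Pool.Agent.Lib.MP_685c9e_ag.Defs73

/-!
# The upper bound
-/

set_option autoImplicit false

namespace Pool.Agent.Lib.MP_685c9e_ag

open MeasureTheory

variable {n : ℕ}

/-- a smooth Fano polytope has integral vertices. -/
theorem SmoothFano.reflexive {V : Finset (Fin n → ℤ)} (h : SmoothFano V) : Reflexive V := by
  refine ⟨h.bdd, fun u hu => ?_⟩
  obtain ⟨b, hb, hdet⟩ := h.smooth u hu
  have htight : ∀ i, pair u (b i) = -1 := by
    intro i
    have : b i ∈ Set.range b := ⟨i, rfl⟩
    rw [hb] at this
    exact this.2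
  set B : Matrix (Fin n) (Fin n) ℤ := Matrix.of b with hB
  set z : Fin n → ℤ := B⁻¹.mulVec (fun _ => -1) with hz
  have h1 : B.mulVec z = fun _ => -1 := by
    rw [hz, Matrix.mulVec_mulVec, Matrix.mul_nonsing_inv _ hdet, Matrix.one_mulVec]
  have h2 : ∀ i, pair (fun j => (z j : ℝ)) (b i) = -1 := by
    intro i
    have := congrFun h1 i
    have h3 : ∑ j, B i j * z j = -1 := this
    have h4 : ((∑ j, B i j * z j : ℤ) : ℝ) = -1 := by rw [h3]; norm_num
    rw [← h4]
    simp only [pair, hB, Matrix.of_apply, Int.cast_sum, Int.cast_mul]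
    exact Finset.sum_congr rfl fun j _ => mul_comm _ _
  have h5 : (B.map (Int.cast : ℤ → ℝ)).mulVec (u - fun j => (z j : ℝ)) = 0 := by
    ext i
    have e1 := htight i
    have e2 := h2 i
    simp only [pair] at e1 e2
    simp only [Matrix.mulVec, dotProduct, Matrix.map_apply, hB, Matrix.of_apply, Pi.sub_apply,
      Pi.zero_apply, mul_sub, Finset.sum_sub_distrib]
    have e3 : ∑ j, (b i j : ℝ) * u j = -1 := by
      rw [← e1]; exact Finset.sum_congr rfl fun j _ => mul_comm _ _
    have e4 : ∑ j, (b i j : ℝ) * (z j : ℝ) = -1 := by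
      rw [← e2]; exact Finset.sum_congr rfl fun j _ => mul_comm _ _
    rw [e3, e4]; ring
  have hdetR : (B.map (Int.cast : ℤ → ℝ)).det ≠ 0 := by
    have e : (B.map (Int.cast : ℤ → ℝ)).det = ((B.det : ℤ) : ℝ) :=
      (Int.cast_det B).symm
    rw [e]
    exact_mod_cast hdet.ne_zero
  have h6 := Matrix.eq_zero_of_mulVec_eq_zero hdetR h5
  intro i
  refine ⟨z i, ?_⟩
  have := congrFun h6 i
  simp only [Pi.sub_apply, Pi.zero_apply] at this
  linarith

/-- the set whose supremum is `A(w)` -/
theorem bddAbove_logDisc {V : Finset (Fin n → ℤ)} (h : Bornology.IsBounded (poly V))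
    (w : Fin n → ℤ) : BddAbove {s | ∃ u ∈ poly V, s = - pair u w} := by
  obtain ⟨C, hC⟩ := (isCompact_poly h).exists_bound_of_continuousOn (f := fun u => pair u w)
    (continuous_pair w).continuousOn
  refine ⟨C, ?_⟩
  rintro s ⟨u, hu, rfl⟩
  have := hC u hu
  rw [Real.norm_eq_abs, abs_le] at this
  linarith [this.1]

theorem nonneg_A {V : Finset (Fin n → ℤ)} (h : Bornology.IsBounded (poly V))
    (w : Fin n → ℤ) {u : Fin n → ℝ} (hu : u ∈ poly V) : 0 ≤ pair u w + logDisc V w := by
  have := le_csSup (bddAbove_logDisc h w) (⟨u, hu, rfl⟩ : -pair u w ∈ {s | ∃ u ∈ poly V, s = - pair u w})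
  unfold logDisc
  linarith

/-- `β(w)` is minus the value of `w` at the barycentre. -/
theorem beta_eq {V : Finset (Fin n → ℤ)} (h : Bornology.IsBounded (poly V)) (w : Fin n → ℤ)
    (hv : (volume (poly V)).toReal ≠ 0) :
    betaT V w = - (∫ u in poly V, pair u w) / (volume (poly V)).toReal := by
  have hK := isCompact_poly h
  have hmeas : MeasurableSet (poly V) := (isClosed_poly V).measurableSet
  have hint : Integrable (fun u => pair u w) (volume.restrict (poly V)) :=
    (continuous_pair w).continuousOn.integrableOn_compact hK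
  have hfin : IsFiniteMeasure (volume.restrict (poly V)) :=
    ⟨by rw [Measure.restrict_apply_univ]; exact hK.measure_lt_top⟩
  have hint2 : Integrable (fun u => pair u w + logDisc V w) (volume.restrict (poly V)) :=
    hint.add (integrable_const _)
  have hnn : 0 ≤ᵐ[volume.restrict (poly V)] fun u => pair u w + logDisc V w := by
    rw [Filter.EventuallyLE, ae_restrict_iff' hmeas]
    exact Filter.Eventually.of_forall fun u hu => nonneg_A h w hu
  have e1 := hint2.integral_eq_integral_meas_le hnn
  have e2 : (∫ t in Set.Ioi (0 : ℝ),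
      (volume {u | u ∈ poly V ∧ t ≤ pair u w + logDisc V w}).toReal)
      = ∫ u in poly V, (pair u w + logDisc V w) := by
    rw [e1]
    refine integral_congr_ae (Filter.Eventually.of_forall fun t => ?_)
    have hms : MeasurableSet {u : Fin n → ℝ | t ≤ pair u w + logDisc V w} :=
      (isClosed_le continuous_const ((continuous_pair w).add continuous_const)).measurableSet
    simp only [Measure.real]
    rw [Measure.restrict_apply hms]
    congr 2
    ext u
    simp only [Set.mem_inter_iff]
    exact ⟨fun h => ⟨h.2, h.1⟩, fun h => ⟨h.2, h.1⟩⟩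
  have e3 : ∫ u in poly V, (pair u w + logDisc V w)
      = (∫ u in poly V, pair u w) + (volume (poly V)).toReal * logDisc V w := by
    rw [integral_add hint (integrable_const _), setIntegral_const, smul_eq_mul, Measure.real]
  unfold betaT
  rw [e2, e3]
  field_simp
  ring

/-- `β ≥ 0` if the polytope is centrally symmetric. -/
theorem beta_nonneg_of_symm {V : Finset (Fin n → ℤ)} (h : Bornology.IsBounded (poly V))
    (hs : ∀ u ∈ poly V, -u ∈ poly V) (w : Fin n → ℤ) : 0 ≤ betaT V w := by
  by_cases hv : (volume (poly V)).toReal = 0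
  · unfold betaT
    rw [hv, div_zero, sub_zero]
    have := nonneg_A h w (zero_mem_poly V)
    rwa [pair_zero, zero_add] at this
  · rw [beta_eq h w hv]
    have hmeas : MeasurableSet (poly V) := (isClosed_poly V).measurableSet
    have hI : ∫ u in poly V, pair u w = 0 := by
      have e1 : ∫ u in poly V, pair u w = ∫ u, (poly V).indicator (fun u => pair u w) u :=
        (integral_indicator hmeas).symm
      have e2 : ∫ u, (poly V).indicator (fun u => pair u w) u
          = ∫ u, (poly V).indicator (fun u => pair u w) (-u) :=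
        (integral_neg_eq_self _ _).symm
      have e3 : ∀ u, (poly V).indicator (fun u => pair u w) (-u)
          = - (poly V).indicator (fun u => pair u w) u := by
        intro u
        by_cases hu : u ∈ poly V
        · rw [Set.indicator_of_mem hu, Set.indicator_of_mem (hs u hu), pair_neg]
        · have hu' : -u ∉ poly V := fun hh => hu (by simpa using hs _ hh)
          rw [Set.indicator_of_notMem hu, Set.indicator_of_notMem hu', neg_zero]
      have e4 : ∫ u, (poly V).indicator (fun u => pair u w) (-u)
          = - ∫ u, (poly V).indicator (fun u => pair u w) u := by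
        rw [← integral_neg]
        exact integral_congr_ae (Filter.Eventually.of_forall e3)
      rw [e1]
      rw [e4] at e2
      linarith
    rw [hI]; simp

/-- The upper bound for reflexive polytopes. -/
theorem upper {V : Finset (Fin n → ℤ)} (h : Reflexive V) (hb : ∃ w, betaT V w < 0) :
    alphaT V ≤ 1 / 3 := by
  by_contra hcon
  push Not at hcon
  obtain ⟨w, hw⟩ := hb
  have hne : {t : ℝ | 0 ≤ t ∧ ∀ u ∈ poly V, ∀ v ∈ V, t * (1 + pair u v) ≤ 1}.Nonempty :=
    ⟨0, le_rfl, fun u _ v _ => by rw [zero_mul]; norm_num⟩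
  obtain ⟨t, ht, ht3⟩ := exists_lt_of_lt_csSup hne hcon
  have h2 : ∀ u ∈ poly V, ∀ v ∈ V, pair u v < 2 := by
    intro u hu v hv
    by_contra h3
    push Not at h3
    have := ht.2 u hu v hv
    nlinarith
  have h1 : ∀ v ∈ V, ∀ u ∈ poly V, pair u v ≤ 1 := by
    intro v hv
    refine le_of_extreme h.bdd fun u hu => ?_
    have h3 := h2 u hu.1 v hv
    choose z hz using h.int u hu
    have e : pair u v = ((∑ i, z i * v i : ℤ) : ℝ) := by
      simp only [pair, Int.cast_sum, Int.cast_mul]
      exact Finset.sum_congr rfl fun i _ => by rw [hz i]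
    rw [e] at h3 ⊢
    have h4 : (∑ i, z i * v i : ℤ) < 2 := by exact_mod_cast h3
    have h5 : (∑ i, z i * v i : ℤ) ≤ 1 := by omega
    exact_mod_cast h5
  have hs : ∀ u ∈ poly V, -u ∈ poly V := by
    intro u hu v hv
    rw [pair_neg]
    linarith [h1 v hv u hu]
  exact absurd (beta_nonneg_of_symm h.bdd hs w) (not_le.2 hw)

end Pool.Agent.Lib.MP_685c9e_ag
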